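import Mathlib
import Pool.Agent.Helper28.MT.Goals3
import Pool.Agent.Helper72.MT2.LAB2

/-!
# Project MT3: the random labeling (packet MT3-LAB3)
-/

set_option autoImplicit false

namespace Pool.Agent.Helper40.MT3

open Finset
open Pool.Agent.Helper28.MT Pool.Agent.Helper28.MT3
open Pool.Agent.Helper28.MT2 (G_H2)

/-- The labels `p 2^l + i`, `i ∈ M`. -/
def dM (N k l p : ℕ) (M : Finset (Fin k)) : Finset (Fin N) :=
  univ.filter (fun lam : Fin N => ∃ i ∈ M, lam.val = p * 2 ^ l + i.val)

/-- the number of patterns is small -/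
lemma count_one (k h s : ℕ) (hk : 2 ≤ k) (hhk : 2 ^ h ≤ 2 * k) (hsk : 2 ^ s ≤ k) :
    4 * (((s + 1) * 2 ^ (s + 2)) * (2 ^ k * (5 * h + 1))) ≤ 2 ^ (20 * k) := by
  have h0 : k ≤ 2 ^ k := Nat.lt_two_pow_self.le
  have h1 : s + 1 ≤ 2 ^ k := (Nat.lt_two_pow_self (n := s)).trans_le (hsk.trans h0)
  have h2 : 2 ^ (s + 2) ≤ 4 * 2 ^ k := by
    rw [pow_add]
    have := hsk.trans h0
    omega
  have h3 : 5 * h + 1 ≤ 16 * 2 ^ k := by
    have := Nat.lt_two_pow_self (n := h)
    omega
  calc 4 * (((s + 1) * 2 ^ (s + 2)) * (2 ^ k * (5 * h + 1)))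
      ≤ 4 * ((2 ^ k * (4 * 2 ^ k)) * (2 ^ k * (16 * 2 ^ k))) := by
        gcongr
    _ = 2 ^ (8 + 4 * k) := by
        rw [pow_add]
        have e1 : (2 : ℕ) ^ (4 * k) = (2 ^ k) ^ 4 := by
          rw [← pow_mul]
          congr 1
          ring
        rw [e1]
        ring
    _ ≤ 2 ^ (20 * k) := by
        apply Nat.pow_le_pow_right (by norm_num)
        omega

theorem mt3_lab3 : G_H2 → G_R1 → G_LAB3 := by
  intro hH hR α _ _ n k h s 𝓤 X hk hnk hkh hhk hs hsk hcard hU
  classical
  obtain ⟨N, hN⟩ : ∃ N : ℕ, N = 2 ^ 26 * 2 ^ s := ⟨_, rfl⟩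
  have hNpos : 0 < N := by rw [hN]; positivity
  have hsN : 2 ^ (s + 2) ≤ N := by
    rw [hN, pow_add, mul_comm]; exact Nat.mul_le_mul_right _ (by norm_num)
  set a := Fintype.card α with hadef
  -- first family of bad labelings
  let B0 : ((Fin (s + 1) × Fin (2 ^ (s + 2))) × (Finset (Fin k) × Fin (5 * h + 1))) →
      Finset α → Finset (α → Fin N) := fun q U =>
    univ.filter (fun f => (1 ≤ q.2.2.val ∧
      2 ^ q.1.1.val ≤ 2 * (dM N k q.1.1.val q.1.2.val q.2.1).card ∧
      2 ^ 33 * q.2.2.val * k * 2 ^ (s - q.1.1.val) ≤ U.card) ∧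
      (U.filter (fun x => f x ∈ dM N k q.1.1.val q.1.2.val q.2.1)).card
        ≤ 16 * q.2.2.val * k)
  have hB0 : ∀ q U, (B0 q U).card * 2 ^ (28 * q.2.2.val * k) ≤ N ^ a := by
    intro q U
    by_cases hq : 1 ≤ q.2.2.val ∧
      2 ^ q.1.1.val ≤ 2 * (dM N k q.1.1.val q.1.2.val q.2.1).card ∧
      2 ^ 33 * q.2.2.val * k * 2 ^ (s - q.1.1.val) ≤ U.card
    · have hls : q.1.1.val ≤ s := by
        have := q.1.1.isLt
        omega
      have h1 := hH α N k (4 * q.2.2.val) (dM N k q.1.1.val q.1.2.val q.2.1) U hNpos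
        (by omega) (by
          have e1 : 2 ^ q.1.1.val * 2 ^ (s - q.1.1.val) = 2 ^ s := by
            rw [← pow_add]; congr 1
            omega
          have e2 : 2 * (16 * (4 * q.2.2.val) * k * N)
              ≤ 2 * ((dM N k q.1.1.val q.1.2.val q.2.1).card * U.card) := by
            calc 2 * (16 * (4 * q.2.2.val) * k * N)
                = 2 ^ 33 * q.2.2.val * k * 2 ^ s := by
                  rw [hN]
                  ring
              _ = 2 ^ 33 * q.2.2.val * k * (2 ^ q.1.1.val * 2 ^ (s - q.1.1.val)) := by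
                  rw [e1]
              _ = 2 ^ q.1.1.val * (2 ^ 33 * q.2.2.val * k * 2 ^ (s - q.1.1.val)) := by
                  ring
              _ ≤ (2 * (dM N k q.1.1.val q.1.2.val q.2.1).card) * U.card :=
                  Nat.mul_le_mul hq.2.1 hq.2.2
              _ = 2 * ((dM N k q.1.1.val q.1.2.val q.2.1).card * U.card) := by
                  ring
          omega)
      have e3 : 7 * (4 * q.2.2.val) * k = 28 * q.2.2.val * k := by ring
      rw [e3] at h1
      refine le_trans (Nat.mul_le_mul_right _ (card_le_card ?_)) h1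
      intro f hf
      simp only [B0, mem_filter, mem_univ, true_and] at hf ⊢
      have e4 : 4 * (4 * q.2.2.val) * k = 16 * q.2.2.val * k := by ring
      rw [e4]
      exact hf.2
    · have h1 : B0 q U = ∅ := by
        apply filter_eq_empty_iff.mpr
        intro f _ hf
        exact hq hf.1
      rw [h1, card_empty, zero_mul]
      exact Nat.zero_le _
  let B1 : ((Fin (s + 1) × Fin (2 ^ (s + 2))) × (Finset (Fin k) × Fin (5 * h + 1))) →
      Finset (α → Fin N) := fun q => (𝓤 q.2.2.val).biUnion (B0 q)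
  have hB1 : ∀ q, (B1 q).card * 2 ^ (20 * k) ≤ N ^ a := by
    intro q
    by_cases hq : 1 ≤ q.2.2.val
    · have h1 : (B1 q).card * 2 ^ (28 * q.2.2.val * k) ≤ 2 ^ (8 * k * q.2.2.val) * N ^ a := by
        calc (B1 q).card * 2 ^ (28 * q.2.2.val * k)
            ≤ (∑ U ∈ 𝓤 q.2.2.val, (B0 q U).card) * 2 ^ (28 * q.2.2.val * k) :=
              Nat.mul_le_mul_right _ card_biUnion_le
          _ = ∑ U ∈ 𝓤 q.2.2.val, (B0 q U).card * 2 ^ (28 * q.2.2.val * k) := by
              rw [sum_mul]
          _ ≤ ∑ _U ∈ 𝓤 q.2.2.val, N ^ a := sum_le_sum (fun U _ => hB0 q U)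
          _ = (𝓤 q.2.2.val).card * N ^ a := by rw [sum_const, smul_eq_mul]
          _ ≤ 2 ^ (8 * k * q.2.2.val) * N ^ a := Nat.mul_le_mul_right _ (hU _ hq)
      have h2 : (B1 q).card * 2 ^ (20 * k * q.2.2.val) ≤ N ^ a := by
        have e1 : 28 * q.2.2.val * k = 20 * k * q.2.2.val + 8 * k * q.2.2.val := by ring
        rw [e1, pow_add] at h1
        have h3 : (B1 q).card * 2 ^ (20 * k * q.2.2.val) * 2 ^ (8 * k * q.2.2.val)
            ≤ N ^ a * 2 ^ (8 * k * q.2.2.val) := by
          calc (B1 q).card * 2 ^ (20 * k * q.2.2.val) * 2 ^ (8 * k * q.2.2.val)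
              = (B1 q).card * (2 ^ (20 * k * q.2.2.val) * 2 ^ (8 * k * q.2.2.val)) := by ring
            _ ≤ 2 ^ (8 * k * q.2.2.val) * N ^ a := h1
            _ = N ^ a * 2 ^ (8 * k * q.2.2.val) := by ring
        exact Nat.le_of_mul_le_mul_right h3 (by positivity)
      refine le_trans (Nat.mul_le_mul_left _ (Nat.pow_le_pow_right (by norm_num) ?_)) h2
      exact Nat.le_mul_of_pos_right _ hq
    · have h1 : B1 q = ∅ := by
        have h2 : ∀ U, B0 q U = ∅ := by
          intro U
          apply filter_eq_empty_iff.mpr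
          intro f _ hf
          exact hq hf.1.1
        apply eq_empty_of_forall_notMem
        intro f hf
        obtain ⟨U, -, hf2⟩ := mem_biUnion.mp hf
        rw [h2] at hf2
        exact notMem_empty f hf2
      rw [h1, card_empty, zero_mul]
      exact Nat.zero_le _
  have hc1 : 4 * (univ.biUnion B1).card ≤ N ^ a := by
    have h1 : (univ.biUnion B1).card * 2 ^ (20 * k)
        ≤ (((s + 1) * 2 ^ (s + 2)) * (2 ^ k * (5 * h + 1))) * N ^ a := by
      calc (univ.biUnion B1).card * 2 ^ (20 * k)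
          ≤ (∑ q, (B1 q).card) * 2 ^ (20 * k) := Nat.mul_le_mul_right _ card_biUnion_le
        _ = ∑ q, (B1 q).card * 2 ^ (20 * k) := by rw [sum_mul]
        _ ≤ ∑ _q : ((Fin (s + 1) × Fin (2 ^ (s + 2))) ×
              (Finset (Fin k) × Fin (5 * h + 1))), N ^ a :=
            sum_le_sum (fun q _ => hB1 q)
        _ = (((s + 1) * 2 ^ (s + 2)) * (2 ^ k * (5 * h + 1))) * N ^ a := by
            rw [sum_const, smul_eq_mul, card_univ]
            simp only [Fintype.card_prod, Fintype.card_fin, Fintype.card_finset]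
    have h2 := count_one k h s hk hhk hsk
    have h3 : 4 * (univ.biUnion B1).card * 2 ^ (20 * k) ≤ N ^ a * 2 ^ (20 * k) := by
      calc 4 * (univ.biUnion B1).card * 2 ^ (20 * k)
          = 4 * ((univ.biUnion B1).card * 2 ^ (20 * k)) := by ring
        _ ≤ 4 * ((((s + 1) * 2 ^ (s + 2)) * (2 ^ k * (5 * h + 1))) * N ^ a) :=
            Nat.mul_le_mul_left _ h1
        _ = (4 * (((s + 1) * 2 ^ (s + 2)) * (2 ^ k * (5 * h + 1)))) * N ^ a := by ring
        _ ≤ 2 ^ (20 * k) * N ^ a := Nat.mul_le_mul_right _ h2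
        _ = N ^ a * 2 ^ (20 * k) := by ring
    exact Nat.le_of_mul_le_mul_right h3 (by positivity)
  -- second family
  let low : Finset (Fin N) := univ.filter (fun lam : Fin N => lam.val < 2 ^ (s + 2))
  have hlow : 2 ^ 24 * low.card = N := by
    have h1 : low.card = 2 ^ (s + 2) := by
      have h2 := Pool.Agent.Helper72.MT2.card_int N 0 (2 ^ (s + 2)) (by omega)
      simpa [low] using h2
    rw [h1, hN, pow_add]
    ring
  clear hN
  let B2 : (Finset (Fin n) × Fin k) × (Finset α × Finset α) → Finset (α → Fin N) := fun p =>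
    univ.filter (fun f => (k ≤ (X p.1.1 p.1.2 p.2.1 p.2.2).card ∧
      k * (p.2.1.card + p.2.2.card) ≤ 2 * (X p.1.1 p.1.2 p.2.1 p.2.2).card) ∧
      3 * (X p.1.1 p.1.2 p.2.1 p.2.2).card
        < 4 * ((X p.1.1 p.1.2 p.2.1 p.2.2).filter (fun x => f x ∈ low)).card)
  have hB2 : ∀ p, ((B2 p).card : ℝ) ≤ (N : ℝ) ^ a * ((1 / 2 ^ (8 * k)) *
      ((1 / 2 ^ (4 * k) : ℝ) ^ p.2.1.card * (1 / 2 ^ (4 * k) : ℝ) ^ p.2.2.card)) := by
    intro p
    by_cases hp : k ≤ (X p.1.1 p.1.2 p.2.1 p.2.2).card ∧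
      k * (p.2.1.card + p.2.2.card) ≤ 2 * (X p.1.1 p.1.2 p.2.1 p.2.2).card
    · have h1 := hR α N low (X p.1.1 p.1.2 p.2.1 p.2.2) hlow
      have h2 : (B2 p).card * 2 ^ (8 * k + 4 * k * p.2.1.card + 4 * k * p.2.2.card) ≤ N ^ a := by
        refine le_trans (Nat.mul_le_mul (card_le_card ?_)
          (Nat.pow_le_pow_right (by norm_num) ?_)) h1
        · intro f hf
          simp only [B2, mem_filter, mem_univ, true_and] at hf ⊢
          exact hf.2
        · have e1 : k * (p.2.1.card + p.2.2.card) = k * p.2.1.card + k * p.2.2.card := by ring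
          have e2 : 4 * k * p.2.1.card = 4 * (k * p.2.1.card) := by ring
          have e3 : 4 * k * p.2.2.card = 4 * (k * p.2.2.card) := by ring
          have := hp.1
          have := hp.2
          omega
      have h3 : ((B2 p).card : ℝ) * 2 ^ (8 * k + 4 * k * p.2.1.card + 4 * k * p.2.2.card)
          ≤ (N : ℝ) ^ a := by exact_mod_cast h2
      have h4 : (N : ℝ) ^ a * ((1 / 2 ^ (8 * k)) *
          ((1 / 2 ^ (4 * k) : ℝ) ^ p.2.1.card * (1 / 2 ^ (4 * k) : ℝ) ^ p.2.2.card))
          = (N : ℝ) ^ a / 2 ^ (8 * k + 4 * k * p.2.1.card + 4 * k * p.2.2.card) := by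
        rw [pow_add, pow_add, one_div_pow, one_div_pow, ← pow_mul, ← pow_mul]
        field_simp
      rw [h4, le_div_iff₀ (by positivity)]
      exact h3
    · have h1 : B2 p = ∅ := by
        apply filter_eq_empty_iff.mpr
        intro f _ hf
        exact hp hf.1
      rw [h1, card_empty, Nat.cast_zero]
      have p1 : (0 : ℝ) ≤ 1 / 2 ^ (4 * k) := by positivity
      have p2 : (0 : ℝ) ≤ 1 / 2 ^ (8 * k) := by positivity
      exact mul_nonneg (pow_nonneg (Nat.cast_nonneg _) _)
        (mul_nonneg p2 (mul_nonneg (pow_nonneg p1 _) (pow_nonneg p1 _)))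
  have hc2 : 4 * (univ.biUnion B2).card ≤ N ^ a := by
    have h1 : ((univ.biUnion B2).card : ℝ) ≤ (N : ℝ) ^ a * (1 / 4) := by
      calc ((univ.biUnion B2).card : ℝ) ≤ ((∑ p, (B2 p).card : ℕ) : ℝ) := by
            exact_mod_cast card_biUnion_le
        _ = ∑ p, ((B2 p).card : ℝ) := by push_cast; rfl
        _ ≤ ∑ p : (Finset (Fin n) × Fin k) × (Finset α × Finset α),
              (N : ℝ) ^ a * ((1 / 2 ^ (8 * k)) *
      ((1 / 2 ^ (4 * k) : ℝ) ^ p.2.1.card * (1 / 2 ^ (4 * k) : ℝ) ^ p.2.2.card)) :=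
            sum_le_sum (fun p _ => hB2 p)
        _ = (N : ℝ) ^ a * ((2 : ℝ) ^ n * k * ((1 / 2 ^ (8 * k)) *
      ((∑ E : Finset α, (1 / 2 ^ (4 * k) : ℝ) ^ E.card) *
        (∑ E : Finset α, (1 / 2 ^ (4 * k) : ℝ) ^ E.card)))) := by
            rw [← mul_sum, Fintype.sum_prod_type]
            simp only [sum_const, card_univ, nsmul_eq_mul, Fintype.card_prod,
              Fintype.card_finset, Fintype.card_fin]
            rw [← mul_sum, Fintype.sum_prod_type, sum_mul_sum]
            push_cast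
            ring
        _ ≤ (N : ℝ) ^ a * (1 / 4) := by
            apply mul_le_mul_of_nonneg_left _ (pow_nonneg (Nat.cast_nonneg _) _)
            exact Pool.Agent.Helper23.MT.count_two α n k hk hnk hcard
    have h2 : (4 : ℝ) * (univ.biUnion B2).card ≤ (N : ℝ) ^ a := by linarith
    exact_mod_cast h2
  -- choose
  have htot : (univ : Finset (α → Fin N)).card = N ^ a := by
    rw [card_univ, Fintype.card_fun, Fintype.card_fin]
  have hex : ∃ f : α → Fin N, f ∉ (univ.biUnion B1) ∪ (univ.biUnion B2) := by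
    by_contra hcon
    simp only [not_exists, not_not] at hcon
    have h1 : (univ : Finset (α → Fin N)) ⊆ (univ.biUnion B1) ∪ (univ.biUnion B2) :=
      fun f _ => hcon f
    have h2 := card_le_card h1
    have h3 := card_union_le (univ.biUnion B1) (univ.biUnion B2)
    have h4 : 0 < N ^ a := Nat.pow_pos hNpos
    rw [htot] at h2
    omega
  obtain ⟨f, hf⟩ := hex
  rw [mem_union, not_or] at hf
  obtain ⟨hf1, hf2⟩ := hf
  refine ⟨fun x => (f x).val, ?_, ?_⟩
  · intro l hl p hp L hL hLc e he1 he2 U hUe hUc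
    by_contra hcon
    rw [not_lt] at hcon
    apply hf1
    rw [mem_biUnion]
    have hp2 : p < 2 ^ (s + 2) := lt_of_lt_of_le hp (Nat.pow_le_pow_right (by norm_num) (by omega))
    have hlk : 2 ^ l ≤ k := (Nat.pow_le_pow_right (by norm_num) hl).trans hsk
    have hD : dM N k l p (univ.filter (fun i : Fin k => p * 2 ^ l + i.val ∈ L))
        = univ.filter (fun lam : Fin N => lam.val ∈ L) := by
      ext lam
      simp only [dM, mem_filter, mem_univ, true_and]
      constructor
      · rintro ⟨i, h1, h2⟩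
        rw [h2]
        exact h1
      · intro h1
        have h2 := hL _ h1
        have h3 := Nat.div_add_mod lam.val (2 ^ l)
        rw [h2] at h3
        have h4 : lam.val % 2 ^ l < 2 ^ l := Nat.mod_lt _ (by positivity)
        have h5 : p * 2 ^ l + lam.val % 2 ^ l = lam.val := by
          rw [mul_comm]
          exact h3
        refine ⟨⟨lam.val % 2 ^ l, lt_of_lt_of_le h4 hlk⟩, ?_, h5.symm⟩
        simp only
        rw [h5]
        exact h1
    have hDc : (univ.filter (fun lam : Fin N => lam.val ∈ L)).card = L.card := by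
      apply card_bij (fun lam _ => lam.val)
      · intro lam hlam
        exact (mem_filter.mp hlam).2
      · intro x _ y _ hxy
        exact Fin.ext hxy
      · intro r hr
        have h1 := hL r hr
        have h2 : r < 2 ^ (s + 2) := by
          have h3 : r < (p + 1) * 2 ^ l := by
            rw [← h1]
            have := Nat.div_add_mod r (2 ^ l)
            have h4 : r % 2 ^ l < 2 ^ l := Nat.mod_lt _ (by positivity)
            calc r = 2 ^ l * (r / 2 ^ l) + r % 2 ^ l := this.symm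
              _ < 2 ^ l * (r / 2 ^ l) + 2 ^ l := by omega
              _ = (r / 2 ^ l + 1) * 2 ^ l := by ring
          have h5 : (p + 1) * 2 ^ l ≤ 2 ^ (s + 2 - l) * 2 ^ l := Nat.mul_le_mul_right _ hp
          have h6 : 2 ^ (s + 2 - l) * 2 ^ l = 2 ^ (s + 2) := by
            rw [← pow_add]
            congr 1
            omega
          omega
        exact ⟨⟨r, lt_of_lt_of_le h2 hsN⟩, mem_filter.mpr ⟨mem_univ _, hr⟩, rfl⟩
    refine ⟨((⟨l, by omega⟩, ⟨p, hp2⟩),
      (univ.filter (fun i : Fin k => p * 2 ^ l + i.val ∈ L), ⟨e, by omega⟩)), mem_univ _, ?_⟩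
    rw [mem_biUnion]
    refine ⟨U, hUe, ?_⟩
    simp only [B0, mem_filter, mem_univ, true_and]
    rw [hD, hDc]
    refine ⟨⟨by omega, hLc, hUc⟩, ?_⟩
    have e1 : U.filter (fun x => f x ∈ univ.filter (fun lam : Fin N => lam.val ∈ L))
        = lab L (fun x => (f x).val) ∩ U := by
      ext x
      simp only [lab, mem_filter, mem_inter, mem_univ, true_and]
      tauto
    rw [e1]
    exact hcon
  · intro I j E Q h1 h2
    by_contra hcon
    rw [not_le] at hcon
    apply hf2
    rw [mem_biUnion]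
    refine ⟨((I, j), (E, Q)), mem_univ _, ?_⟩
    simp only [B2, mem_filter, mem_univ, true_and]
    refine ⟨⟨h1, h2⟩, ?_⟩
    have e1 : ((X I j E Q).filter (fun x => f x ∈ low)).card
        + (tp s (fun x => (f x).val) ∩ X I j E Q).card
        = (X I j E Q).card := by
      have e2 : tp s (fun x => (f x).val) ∩ X I j E Q
          = (X I j E Q).filter (fun x => ¬ (f x ∈ low)) := by
        ext x
        simp only [tp, low, mem_filter, mem_inter, mem_univ, true_and, not_lt]
        tauto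
      rw [e2]
      exact card_filter_add_card_filter_not _
    omega

end Pool.Agent.Helper40.MT3
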